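import Pool.Agent.helper88.RF.SpecW
set_option autoImplicit false
open Finset
namespace Pool.Agent.RF

theorem SNR_nn (B : ℕ) (r : OO → ℤ × ℤ × ℤ) (h : ℕ) (k : OO) : 0 ≤ nearK B r h k := Nat.cast_nonneg _

/-- a sum over a set which is covered by a map -/
theorem SNR_cover {α : Type} (A : Finset ℕ) (F : Finset α) (φ : α → ℕ) (f : ℕ → ℝ) (hf : ∀ h, 0 ≤ f h)
    (hc : ∀ h ∈ A, ∃ t ∈ F, φ t = h) : ∑ h ∈ A, f h ≤ ∑ t ∈ F, f (φ t) := by
  classical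
  have h1 : A ⊆ F.image φ := by
    intro h hh
    obtain ⟨t, ht, he⟩ := hc h hh
    exact Finset.mem_image.mpr ⟨t, ht, he⟩
  calc ∑ h ∈ A, f h ≤ ∑ h ∈ F.image φ, f h := Finset.sum_le_sum_of_subset_of_nonneg h1 fun _ _ _ => hf _
    _ ≤ ∑ t ∈ F, f (φ t) := Finset.sum_image_le_of_nonneg fun _ _ => hf _

/-- Cauchy-Schwarz -/
theorem SNR_cs {α : Type} (S : Finset ℕ) (Kf : ℕ → Finset α) (f : ℕ → α → ℝ) (hf : ∀ h k, 0 ≤ f h k) (n : ℝ)
    (hn : (∑ h ∈ S, ((Kf h).card : ℝ)) ≤ n) :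
    (∑ h ∈ S, ∑ k ∈ Kf h, √(f h k)) ^ 2 ≤ n * ∑ h ∈ S, ∑ k ∈ Kf h, f h k := by
  rw [Finset.sum_sigma' S Kf, Finset.sum_sigma' S Kf]
  refine (sq_sum_le_card_mul_sum_sq).trans ?_
  have h1 : ∑ x ∈ S.sigma Kf, √(f x.1 x.2) ^ 2 = ∑ x ∈ S.sigma Kf, f x.1 x.2 :=
    Finset.sum_congr rfl fun x _ => Real.sq_sqrt (hf _ _)
  rw [h1]
  refine mul_le_mul_of_nonneg_right ?_ (Finset.sum_nonneg fun _ _ => hf _ _)
  rw [Finset.card_sigma]
  push_cast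
  exact hn

/-- the numbers -/
theorem SNR_num (S c1 c2 t Q P H G L : ℝ) (hc1 : 1 ≤ c1) (hc2 : 1 ≤ c2) (ht : 1 ≤ t) (hQ : 1 ≤ Q) (hP : 1 ≤ P)
    (hPH : P ≤ H) (hG : 1 ≤ G) (hL : 1 ≤ L)
    (h : S ^ 2 ≤ (c2 * Q * P) * (P * (c2 * Q) + c1 * t * (G ^ 2 * L ^ 4 * (1 + Q / P) + Q * L ^ 2))) :
    S ≤ (c2 * (c2 + c1)) * t * (Q * H + √(Q * H) * G * L ^ 2 + Q * G * L ^ 2 + Q * √H * L) := by
  have hP0 : 0 < P := by linarith
  have hH0 : 0 < H := by linarith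
  set X : ℝ := Q * H + √(Q * H) * G * L ^ 2 + Q * G * L ^ 2 + Q * √H * L with hX
  set x : ℝ := Q * P + √(Q * P) * G * L ^ 2 + Q * G * L ^ 2 + Q * √P * L with hx
  have hx0 : 0 ≤ x := by positivity
  have hX0 : 0 ≤ X := by positivity
  have hxX : x ≤ X := by
    rw [hx, hX]
    have h1 : √(Q * P) ≤ √(Q * H) := Real.sqrt_le_sqrt (mul_le_mul_of_nonneg_left hPH (by linarith))
    have h2 : √P ≤ √H := Real.sqrt_le_sqrt hPH
    gcongr
  have h1 : (c2 * Q * P) * (P * (c2 * Q) + c1 * t * (G ^ 2 * L ^ 4 * (1 + Q / P) + Q * L ^ 2)) ≤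
      (c2 * (c2 + c1)) * t * x ^ 2 := by
    have e1 : (c2 * Q * P) * (P * (c2 * Q) + c1 * t * (G ^ 2 * L ^ 4 * (1 + Q / P) + Q * L ^ 2)) =
        c2 * c2 * (Q * P) ^ 2 + c2 * c1 * t * (Q * P * (G * L ^ 2) ^ 2 + (Q * G * L ^ 2) ^ 2 + Q ^ 2 * P * L ^ 2) := by
      field_simp
    rw [e1]
    have s1 : √(Q * P) ^ 2 = Q * P := Real.sq_sqrt (by positivity)
    have s2 : √P ^ 2 = P := Real.sq_sqrt (by positivity)
    have e2 : (Q * P) ^ 2 + (Q * P * (G * L ^ 2) ^ 2 + (Q * G * L ^ 2) ^ 2 + Q ^ 2 * P * L ^ 2) ≤ x ^ 2 := by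
      have a1 : 0 ≤ Q * P := by positivity
      have a2 : 0 ≤ √(Q * P) * G * L ^ 2 := by positivity
      have a3 : 0 ≤ Q * G * L ^ 2 := by positivity
      have a4 : 0 ≤ Q * √P * L := by positivity
      have b2 : (√(Q * P) * G * L ^ 2) ^ 2 = Q * P * (G * L ^ 2) ^ 2 := by
        calc (√(Q * P) * G * L ^ 2) ^ 2 = √(Q * P) ^ 2 * (G * L ^ 2) ^ 2 := by ring
          _ = _ := by rw [s1]
      have b4 : (Q * √P * L) ^ 2 = Q ^ 2 * P * L ^ 2 := by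
        calc (Q * √P * L) ^ 2 = Q ^ 2 * √P ^ 2 * L ^ 2 := by ring
          _ = _ := by rw [s2]
      rw [← b2, ← b4, hx]
      generalize √(Q * P) * G * L ^ 2 = y2 at *
      generalize Q * G * L ^ 2 = y3 at *
      generalize Q * √P * L = y4 at *
      generalize Q * P = y1 at *
      nlinarith [mul_nonneg a1 a2, mul_nonneg a1 a3, mul_nonneg a1 a4, mul_nonneg a2 a3, mul_nonneg a2 a4, mul_nonneg a3 a4]
    have a1 : 0 ≤ (Q * P) ^ 2 := by positivity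
    have a2 : 0 ≤ Q * P * (G * L ^ 2) ^ 2 + (Q * G * L ^ 2) ^ 2 + Q ^ 2 * P * L ^ 2 := by positivity
    calc c2 * c2 * (Q * P) ^ 2 + c2 * c1 * t * (Q * P * (G * L ^ 2) ^ 2 + (Q * G * L ^ 2) ^ 2 + Q ^ 2 * P * L ^ 2)
        ≤ (c2 * (c2 + c1)) * t * (Q * P) ^ 2 + (c2 * (c2 + c1)) * t * (Q * P * (G * L ^ 2) ^ 2 + (Q * G * L ^ 2) ^ 2 + Q ^ 2 * P * L ^ 2) := by
          apply add_le_add
          · apply mul_le_mul_of_nonneg_right _ a1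
            have : c2 * c2 ≤ c2 * (c2 + c1) := mul_le_mul_of_nonneg_left (by linarith) (by linarith)
            have h3 : 0 ≤ c2 * (c2 + c1) := by positivity
            nlinarith
          · apply mul_le_mul_of_nonneg_right _ a2
            apply mul_le_mul_of_nonneg_right _ (by linarith)
            exact mul_le_mul_of_nonneg_left (by linarith) (by linarith)
      _ = (c2 * (c2 + c1)) * t * ((Q * P) ^ 2 + (Q * P * (G * L ^ 2) ^ 2 + (Q * G * L ^ 2) ^ 2 + Q ^ 2 * P * L ^ 2)) := by ring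
      _ ≤ (c2 * (c2 + c1)) * t * x ^ 2 := mul_le_mul_of_nonneg_left e2 (by positivity)
  have hc : 1 ≤ (c2 * (c2 + c1)) * t := by
    have h3 : 1 ≤ c2 * (c2 + c1) := by nlinarith
    nlinarith
  have h2 : S ^ 2 ≤ ((c2 * (c2 + c1)) * t * X) ^ 2 := by
    calc S ^ 2 ≤ (c2 * (c2 + c1)) * t * x ^ 2 := h.trans h1
      _ ≤ (c2 * (c2 + c1)) * t * X ^ 2 := by gcongr
      _ ≤ ((c2 * (c2 + c1)) * t * X) ^ 2 := by
          rw [mul_pow]
          apply mul_le_mul_of_nonneg_right _ (sq_nonneg X)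
          nlinarith
  exact abs_le_of_sq_le_sq' h2 (by positivity) |>.2

/-- the number of dyadic blocks -/
theorem SNR_log (ε : ℝ) (hε : 0 < ε) : ∃ C : ℝ, 1 ≤ C ∧ ∀ T H : ℕ, 1 ≤ H → H ≤ T → ((Nat.log 2 H + 1 : ℕ) : ℝ) ^ 2 ≤ C * (T : ℝ) ^ ε := by
  set δ := ε / 2 with hδ
  have hδ0 : 0 < δ := by positivity
  refine ⟨(1 + 2 / δ) ^ 2, ?_, ?_⟩
  · have : 0 < 2 / δ := by positivity
    nlinarith
  intro T H hH hHT
  have hT1 : (1 : ℝ) ≤ T := by exact_mod_cast hH.trans hHT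
  have h1 : (Nat.log 2 H : ℝ) ≤ 2 * Real.log T := by
    have h2 : 2 ^ Nat.log 2 H ≤ T := (Nat.pow_log_le_self 2 (by omega)).trans hHT
    have h3 : ((2 : ℝ)) ^ Nat.log 2 H ≤ T := by exact_mod_cast h2
    have h4 : Real.log ((2 : ℝ) ^ Nat.log 2 H) ≤ Real.log T := Real.log_le_log (by positivity) h3
    rw [Real.log_pow] at h4
    have h5 : (1 / 2 : ℝ) ≤ Real.log 2 := by linarith [Real.log_two_gt_d9]
    have h6 : (0 : ℝ) ≤ Nat.log 2 H := Nat.cast_nonneg _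
    nlinarith
  have h2 : Real.log T ≤ (T : ℝ) ^ δ / δ := Real.log_le_rpow_div (by linarith) hδ0
  have h3 : (1 : ℝ) ≤ (T : ℝ) ^ δ := Real.one_le_rpow hT1 hδ0.le
  have h4 : ((Nat.log 2 H + 1 : ℕ) : ℝ) ≤ (1 + 2 / δ) * (T : ℝ) ^ δ := by
    push_cast
    calc (Nat.log 2 H : ℝ) + 1 ≤ 2 * ((T : ℝ) ^ δ / δ) + (T : ℝ) ^ δ := by linarith
      _ = _ := by ring
  have h5 : (T : ℝ) ^ ε = ((T : ℝ) ^ δ) ^ 2 := by
    rw [← Real.rpow_natCast, ← Real.rpow_mul (by linarith)]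
    congr 1
    rw [hδ]; push_cast; ring
  calc ((Nat.log 2 H + 1 : ℕ) : ℝ) ^ 2 ≤ ((1 + 2 / δ) * (T : ℝ) ^ δ) ^ 2 := by gcongr
    _ = (1 + 2 / δ) ^ 2 * (T : ℝ) ^ ε := by rw [h5]; ring

/-- the decomposition of `h` -/
theorem SNR_dec (H q h : ℕ) (hq : q.Prime) (h1 : 1 ≤ h) (hH : h ≤ H) (hqh : ¬ q ∣ h) :
    ∃ i j m : ℕ, i < Nat.log 2 H + 1 ∧ j < Nat.log 2 H + 1 ∧ 2 ^ i ≤ m ∧ m < 2 * 2 ^ i ∧ Nat.Coprime m (5 * q) ∧ 5 ^ j * m = h := by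
  obtain ⟨j, m, hm, he⟩ := Nat.exists_eq_pow_mul_and_not_dvd (n := h) (by omega) 5 (by norm_num)
  have hm0 : m ≠ 0 := by
    rintro rfl
    exact hm (dvd_zero 5)
  have h5 : 1 ≤ 5 ^ j := Nat.one_le_pow _ _ (by norm_num)
  have hmh : m ≤ h := by
    rw [he]
    exact Nat.le_mul_of_pos_left m h5
  have h5h : 5 ^ j ≤ h := by
    rw [he]
    exact Nat.le_mul_of_pos_right _ (Nat.pos_of_ne_zero hm0)
  refine ⟨Nat.log 2 m, j, m, ?_, ?_, Nat.pow_log_le_self 2 hm0, ?_, ?_, he.symm⟩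
  · have : Nat.log 2 m ≤ Nat.log 2 H := Nat.log_mono_right (hmh.trans hH)
    omega
  · have h2 : 2 ^ j ≤ H := (Nat.pow_le_pow_left (by norm_num) j).trans (h5h.trans hH)
    have : j ≤ Nat.log 2 H := Nat.le_log_of_pow_le (by norm_num) h2
    omega
  · have := Nat.lt_pow_succ_log_self (b := 2) (by norm_num) m
    rw [pow_succ] at this
    omega
  · apply Nat.Coprime.mul_right
    · exact ((Nat.Prime.coprime_iff_not_dvd (by norm_num)).mpr hm).symm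
    · refine ((Nat.Prime.coprime_iff_not_dvd hq).mpr ?_).symm
      intro hqm
      apply hqh
      rw [he]
      exact Dvd.dvd.mul_left hqm _

/-- the sum over the blocks -/
theorem SNR_sum (H : ℕ) (K : Finset OO) (f : ℕ → OO → ℝ) (hf : ∀ h k, 0 ≤ f h k) (hK : ∀ k ∈ K, k.norm.natAbs.Prime) :
    ∑ k ∈ K, ∑ h ∈ (Icc 1 H).filter (fun h => ¬ k.norm.natAbs ∣ h), f h k ≤
      ∑ ij ∈ range (Nat.log 2 H + 1) ×ˢ range (Nat.log 2 H + 1),
        ∑ h ∈ (Ico (2 ^ ij.1) (2 * 2 ^ ij.1)).filter (fun h => 5 ^ ij.2 * h ≤ H),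
          ∑ k ∈ K.filter (fun k => Nat.Coprime h (5 * k.norm.natAbs)), f (5 ^ ij.2 * h) k := by
  classical
  have h1 : ∀ ij : ℕ × ℕ, ∑ h ∈ (Ico (2 ^ ij.1) (2 * 2 ^ ij.1)).filter (fun h => 5 ^ ij.2 * h ≤ H),
        ∑ k ∈ K.filter (fun k => Nat.Coprime h (5 * k.norm.natAbs)), f (5 ^ ij.2 * h) k =
      ∑ k ∈ K, ∑ h ∈ ((Ico (2 ^ ij.1) (2 * 2 ^ ij.1)).filter (fun h => 5 ^ ij.2 * h ≤ H)).filter
        (fun h => Nat.Coprime h (5 * k.norm.natAbs)), f (5 ^ ij.2 * h) k := by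
    intro ij
    apply Finset.sum_comm'
    intro h k
    simp only [mem_filter]
    tauto
  rw [Finset.sum_congr rfl fun ij _ => h1 ij, Finset.sum_comm]
  apply Finset.sum_le_sum
  intro k hk
  have h2 := SNR_cover ((Icc 1 H).filter (fun h => ¬ k.norm.natAbs ∣ h))
    ((range (Nat.log 2 H + 1) ×ˢ range (Nat.log 2 H + 1)).sigma
      (fun ij => ((Ico (2 ^ ij.1) (2 * 2 ^ ij.1)).filter (fun h => 5 ^ ij.2 * h ≤ H)).filter
          (fun h => Nat.Coprime h (5 * k.norm.natAbs)))) (fun t => 5 ^ t.1.2 * t.2) (fun h => f h k) (fun h => hf h k)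
    (by
      intro h hh
      rw [mem_filter, mem_Icc] at hh
      obtain ⟨i, j, m, hi, hj, hm1, hm2, hm3, hm4⟩ := SNR_dec H k.norm.natAbs h (hK k hk) hh.1.1 hh.1.2 hh.2
      refine ⟨⟨(i, j), m⟩, ?_, hm4⟩
      rw [mem_sigma, mem_product, mem_range, mem_range, mem_filter, mem_filter, mem_Ico]
      refine ⟨⟨hi, hj⟩, ⟨⟨hm1, hm2⟩, ?_⟩, hm3⟩
      show 5 ^ j * m ≤ H
      rw [hm4]
      exact hh.1.2)
  rw [Finset.sum_sigma] at h2
  exact h2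

theorem SNR_proof (hWNS : WNS_stmt) (hWBX : WBX_stmt) : SNR_stmt := by
  classical
  intro C₀ ε hC₀ hε
  obtain ⟨c1, hc1, hW⟩ := hWNS C₀ (ε / 2) hC₀ (by positivity)
  obtain ⟨c2, hc2, hB⟩ := hWBX
  obtain ⟨c3, hc3, hN⟩ := SNR_log (ε / 2) (by positivity)
  have hc42 : 1 ≤ 4 * c2 := by linarith
  have hcc : 1 ≤ (4 * c2) * (4 * c2 + c1) := by nlinarith
  refine ⟨c3 * ((4 * c2) * (4 * c2 + c1)), by nlinarith, ?_⟩
  intro T Q B c H G L g K r hQ hQT hB1 hc hHT hG hGT hL hLT hg hga hgb hQL hHc hK hKd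
  set X : ℝ := Q * H + √(Q * H) * G * L ^ 2 + Q * G * L ^ 2 + Q * √(H : ℝ) * L with hX
  have hX0 : 0 ≤ X := by positivity
  rcases Nat.eq_zero_or_pos H with h0 | hH
  · have h1 : ∑ k ∈ K, ∑ h ∈ (Icc 1 H).filter (fun h => ¬ k.norm.natAbs ∣ h), √(nearK B r h k) = 0 := by
      apply Finset.sum_eq_zero
      intro k _
      rw [h0]
      simp
    rw [h1]
    positivity
  have hT1 : (1 : ℝ) ≤ T := by exact_mod_cast hQ.trans hQT
  have hQR : (1 : ℝ) ≤ Q := by exact_mod_cast hQ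
  have hHR : (1 : ℝ) ≤ H := by exact_mod_cast hH
  -- the number of moduli
  have hKc : (K.card : ℝ) ≤ 4 * c2 * Q := by
    have h1 : (1 : ℝ) ≤ 2 * √(Q : ℝ) := by
      have : (1 : ℝ) ≤ √(Q : ℝ) := Real.one_le_sqrt.mpr hQR
      linarith
    refine (hB (2 * √(Q : ℝ)) h1 K (fun x hx => ⟨(hK x hx).1.ba, (hK x hx).1.bb⟩)).trans (le_of_eq ?_)
    rw [mul_pow, Real.sq_sqrt (by linarith)]
    ring
  -- one block
  have hblock : ∀ i j : ℕ, ∑ h ∈ (Ico (2 ^ i) (2 * 2 ^ i)).filter (fun h => 5 ^ j * h ≤ H),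
      ∑ k ∈ K.filter (fun k => Nat.Coprime h (5 * k.norm.natAbs)), √(nearK B r (5 ^ j * h) k) ≤
        ((4 * c2) * (4 * c2 + c1)) * (T : ℝ) ^ (ε / 2) * X := by
    intro i j
    rcases ((Ico (2 ^ i) (2 * 2 ^ i)).filter (fun h => 5 ^ j * h ≤ H)).eq_empty_or_nonempty with he | ⟨h0, hh0⟩
    · rw [he, Finset.sum_empty]
      positivity
    rw [mem_filter, mem_Ico] at hh0
    have h5 : 1 ≤ 5 ^ j := Nat.one_le_pow _ _ (by norm_num)
    have hPH : 2 ^ i ≤ H := hh0.1.1.trans ((Nat.le_mul_of_pos_left h0 h5).trans hh0.2)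
    have hP1 : 1 ≤ 2 ^ i := Nat.one_le_pow _ _ (by norm_num)
    have hcard : ((((Ico (2 ^ i) (2 * 2 ^ i)).filter (fun h => 5 ^ j * h ≤ H)).card : ℕ) : ℝ) ≤ ((2 ^ i : ℕ) : ℝ) := by
      have h1 := Finset.card_filter_le (Ico (2 ^ i) (2 * 2 ^ i)) (fun h => 5 ^ j * h ≤ H)
      rw [Nat.card_Ico] at h1
      have h2 : 2 * 2 ^ i - 2 ^ i = 2 ^ i := by omega
      rw [h2] at h1
      exact_mod_cast h1
    have hn : (∑ h ∈ (Ico (2 ^ i) (2 * 2 ^ i)).filter (fun h => 5 ^ j * h ≤ H),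
        ((K.filter (fun k => Nat.Coprime h (5 * k.norm.natAbs))).card : ℝ)) ≤ (4 * c2) * Q * ((2 ^ i : ℕ) : ℝ) := by
      calc (∑ h ∈ (Ico (2 ^ i) (2 * 2 ^ i)).filter (fun h => 5 ^ j * h ≤ H),
        ((K.filter (fun k => Nat.Coprime h (5 * k.norm.natAbs))).card : ℝ)) ≤
            ∑ _h ∈ (Ico (2 ^ i) (2 * 2 ^ i)).filter (fun h => 5 ^ j * h ≤ H), 4 * c2 * Q := by
            apply Finset.sum_le_sum
            intro h _
            refine le_trans ?_ hKc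
            exact_mod_cast Finset.card_filter_le _ _
        _ = ((((Ico (2 ^ i) (2 * 2 ^ i)).filter (fun h => 5 ^ j * h ≤ H)).card : ℕ) : ℝ) * (4 * c2 * Q) := by
            rw [Finset.sum_const, nsmul_eq_mul]
        _ ≤ ((2 ^ i : ℕ) : ℝ) * (4 * c2 * Q) := mul_le_mul_of_nonneg_right hcard (by positivity)
        _ = _ := by ring
    have hcs := SNR_cs ((Ico (2 ^ i) (2 * 2 ^ i)).filter (fun h => 5 ^ j * h ≤ H))
      (fun h => K.filter (fun k => Nat.Coprime h (5 * k.norm.natAbs))) (fun h k => nearK B r (5 ^ j * h) k)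
      (fun h k => SNR_nn B r _ k) _ hn
    have hw := hW T Q B c (5 ^ j) (2 ^ i) G L g K r hQ hQT hB1 hc h5 hP1 (hPH.trans hHT) hG hGT hL hLT hg hga hgb hQL hK hKd
    have hsub : ∑ h ∈ (Ico (2 ^ i) (2 * 2 ^ i)).filter (fun h => 5 ^ j * h ≤ H),
        ∑ k ∈ K.filter (fun k => Nat.Coprime h (5 * k.norm.natAbs)), nearK B r (5 ^ j * h) k ≤
        ∑ h ∈ (Ico (2 ^ i) (2 * 2 ^ i)).filter (fun h => ((5 ^ j * h * c : ℕ) : ℝ) * (B : ℝ) ^ 2 ≤ C₀ * (Q : ℝ) ^ 3),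
        ∑ k ∈ K.filter (fun k => Nat.Coprime h (5 * k.norm.natAbs)), nearK B r (5 ^ j * h) k := by
      apply Finset.sum_le_sum_of_subset_of_nonneg
      · intro h hh
        rw [mem_filter] at hh ⊢
        refine ⟨hh.1, le_trans ?_ hHc⟩
        have h2 : ((5 ^ j * h : ℕ) : ℝ) ≤ H := by exact_mod_cast hh.2
        rw [Nat.cast_mul (5 ^ j * h) c]
        gcongr
      · intro h _ _
        exact Finset.sum_nonneg fun k _ => SNR_nn B r _ k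
    have hPR : (1 : ℝ) ≤ ((2 ^ i : ℕ) : ℝ) := by exact_mod_cast hP1
    have hPHR : ((2 ^ i : ℕ) : ℝ) ≤ H := by exact_mod_cast hPH
    have hct : (1 : ℝ) ≤ (T : ℝ) ^ (ε / 2) := Real.one_le_rpow hT1 (by positivity)
    apply SNR_num _ c1 (4 * c2) ((T : ℝ) ^ (ε / 2)) Q ((2 ^ i : ℕ) : ℝ) H G L hc1 hc42 hct hQR hPR hPHR hG hL
    refine hcs.trans (mul_le_mul_of_nonneg_left ?_ (by positivity))
    refine hsub.trans (hw.trans ?_)
    have h3 : ((2 ^ i : ℕ) : ℝ) * (K.card : ℝ) ≤ ((2 ^ i : ℕ) : ℝ) * (4 * c2 * Q) := mul_le_mul_of_nonneg_left hKc (by positivity)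
    linarith
  -- the sum over the blocks
  have hsum := SNR_sum H K (fun h k => √(nearK B r h k)) (fun h k => Real.sqrt_nonneg _) (fun k hk => (hK k hk).1.pr)
  refine hsum.trans ?_
  calc ∑ ij ∈ range (Nat.log 2 H + 1) ×ˢ range (Nat.log 2 H + 1),
        ∑ h ∈ (Ico (2 ^ ij.1) (2 * 2 ^ ij.1)).filter (fun h => 5 ^ ij.2 * h ≤ H),
          ∑ k ∈ K.filter (fun k => Nat.Coprime h (5 * k.norm.natAbs)), √(nearK B r (5 ^ ij.2 * h) k)
      ≤ ∑ _ij ∈ range (Nat.log 2 H + 1) ×ˢ range (Nat.log 2 H + 1),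
        ((4 * c2) * (4 * c2 + c1)) * (T : ℝ) ^ (ε / 2) * X := Finset.sum_le_sum fun ij _ => hblock ij.1 ij.2
    _ = ((Nat.log 2 H + 1 : ℕ) : ℝ) ^ 2 * (((4 * c2) * (4 * c2 + c1)) * (T : ℝ) ^ (ε / 2) * X) := by
        rw [Finset.sum_const, Finset.card_product, card_range, nsmul_eq_mul]
        push_cast
        ring
    _ ≤ (c3 * (T : ℝ) ^ (ε / 2)) * (((4 * c2) * (4 * c2 + c1)) * (T : ℝ) ^ (ε / 2) * X) :=
        mul_le_mul_of_nonneg_right (hN T H hH hHT) (by positivity)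
    _ = c3 * ((4 * c2) * (4 * c2 + c1)) * ((T : ℝ) ^ (ε / 2) * (T : ℝ) ^ (ε / 2)) * X := by ring
    _ = c3 * ((4 * c2) * (4 * c2 + c1)) * (T : ℝ) ^ ε * X := by
        rw [← Real.rpow_add (by linarith)]
        congr 3
        ring

end Pool.Agent.RF
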